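import Pool.Agent.W2helper26.PB.Stm
import Pool.Agent.W2helper61.SM.Enc

/-!
# Project PB, piece VER: the verifier
-/

set_option autoImplicit false

namespace Pool.Agent.W2helper12.PB

open Pool.Agent.W2helper26.PB
open Pool.Agent.NPC (pairBits PolyTime)
open Pool.Agent.H620R2.Gauge (Oracle Alg IsFP)
open Pool.Agent.H583R2
open Pool.Agent.W2helper61.SM (dlm decPs decPs_eq pf_dlm pf_decPs)

/-! ### numbers cut at `K` -/

/-- iterated doubling, cut at `K` -/
def dbl (K n s : ℕ) : ℕ := (fun t => min (2 * t) K)^[n] (min s K)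

lemma dbl_eq (K n s : ℕ) : dbl K n s = min (2 ^ n * s) K := by
  unfold dbl
  induction n with
  | zero => simp
  | succ n ih =>
    rw [Function.iterate_succ_apply', ih, pow_succ, mul_comm _ 2, mul_assoc]
    omega

lemma dbl_le (K n s : ℕ) : dbl K n s ≤ K := by
  rw [dbl_eq]; exact min_le_right _ _

lemma min_pow (E K : ℕ) : min (2 ^ (min E K)) K = min (2 ^ E) K := by
  rcases le_total E K with h | h
  · rw [min_eq_left h]
  · have h1 : K < 2 ^ K := Nat.lt_two_pow_self
    have h2 : 2 ^ K ≤ 2 ^ E := Nat.pow_le_pow_right (by norm_num) h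
    rw [min_eq_right h]
    omega

/-- the levels, cut at `K` -/
def levc (K c₀ : ℕ) (c : List Bool) (d m : ℕ) : ℕ :=
  dbl K (dbl K (dbl K (c₀ + 2 * c.length + d) m) 1) 1

lemma levc_eq (K c₀ : ℕ) (c : List Bool) (d m : ℕ) :
    levc K c₀ c d m = min (lev c₀ (c, d) m) K := by
  unfold levc lev
  rw [dbl_eq, dbl_eq, dbl_eq, mul_one, mul_one, mul_comm (2 ^ (c₀ + 2 * c.length + d)) m,
    min_pow (m * 2 ^ (c₀ + 2 * c.length + d)) K, min_pow]

lemma lev_mono (c₀ : ℕ) (i : Ix) (m : ℕ) : lev c₀ i m ≤ lev c₀ i (m + 1) := by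
  unfold lev
  refine Nat.pow_le_pow_right (by norm_num) (Nat.pow_le_pow_right (by norm_num) ?_)
  exact Nat.mul_le_mul_right _ (Nat.le_succ m)

/-! ### parsing -/

/-- the number of `true`s at the beginning -/
def Tg (g : List Bool) : ℕ := g.foldr (fun b n => if b then n + 1 else 0) 0

lemma Tg_rep (n : ℕ) (r : List Bool) : Tg (List.replicate n true ++ false :: r) = n := by
  induction n with
  | zero => rfl
  | succ n ih =>
    rw [List.replicate_succ, List.cons_append]
    change (if true then Tg (List.replicate n true ++ false :: r) + 1 else 0) = _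
    rw [ih, if_pos rfl]

/-- what follows -/
def rs (g : List Bool) : List Bool := g.drop (Tg g + 1)

def ci (g : List Bool) : List Bool := (decPs (rs g)).1
def dg (g : List Bool) : ℕ := (decPs (decPs (rs g)).2).1.length
def mg (g : List Bool) : ℕ := (decPs (decPs (rs g)).2).2.length

/-- the string with these entries -/
def gm (g : List Bool) : List Bool :=
  List.replicate (Tg g) true ++
    false :: (dlm (ci g) ++ (dlm (List.replicate (dg g) true) ++ List.replicate (mg g) true))

lemma pairBits_eq (x w : List Bool) : pairBits x w = dlm x ++ w := by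
  simp [pairBits, dlm]

lemma dec_pair (x w : List Bool) : decPs (pairBits x w) = (x, w) := by
  rw [pairBits_eq, decPs_eq]

lemma gam_parse (c₀ : ℕ) (i : Ix) (m : ℕ) : Tg (gam c₀ i m) = lev c₀ i (m + 1) ∧
    ci (gam c₀ i m) = i.1 ∧ dg (gam c₀ i m) = i.2 ∧ mg (gam c₀ i m) = m := by
  have hT : Tg (gam c₀ i m) = lev c₀ i (m + 1) := Tg_rep _ _
  have hr : rs (gam c₀ i m) =
      pairBits i.1 (pairBits (List.replicate i.2 true) (List.replicate m true)) := by
    unfold rs
    rw [hT, gam, List.drop_append]
    simp
  refine ⟨hT, ?_, ?_, ?_⟩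
  · rw [ci, hr, dec_pair]
  · rw [dg, hr, dec_pair, dec_pair, List.length_replicate]
  · rw [mg, hr, dec_pair, dec_pair, List.length_replicate]

def gz (z : List Bool) : List Bool := (decPs (decPs z).2).1
def xz (z : List Bool) : List Bool := (decPs (decPs z).2).2
def wz (z : List Bool) : List Bool := (decPs z).1

/-- is the input valid? -/
def vld (c₀ : ℕ) (z : List Bool) : Bool :=
  ((((decPs z).2 == dlm (gz z) ++ xz z) && (gz z == gm (gz z))) &&
    (decide (levc (Tg (gz z) + 1) c₀ (ci (gz z)) (dg (gz z)) (mg (gz z) + 1) = Tg (gz z)) &&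
    decide ((xz z).length ≤ levc (Tg (gz z) + 1) c₀ (ci (gz z)) (dg (gz z)) (mg (gz z))))) &&
    decide (Tg (gz z) ≤ z.length)

lemma vld_imp {c₀ : ℕ} {w y : List Bool} (h : vld c₀ (pairBits w y) = true) :
    ∃ i m x, y = pairBits (gam c₀ i m) x ∧ x.length ≤ lev c₀ i m := by
  unfold vld gz xz at h
  rw [dec_pair] at h
  simp only [Bool.and_eq_true, beq_iff_eq, decide_eq_true_eq] at h
  obtain ⟨⟨⟨h1, h2⟩, h3, h4⟩, -⟩ := h
  set g := (decPs y).1 with hg
  rw [levc_eq] at h3 h4
  refine ⟨(ci g, dg g), mg g, (decPs y).2, ?_, h4.trans (min_le_left _ _)⟩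
  have h5 : lev c₀ (ci g, dg g) (mg g + 1) = Tg g := by omega
  have h6 : gam c₀ (ci g, dg g) (mg g) = g := by
    rw [gam, h5, pairBits_eq, pairBits_eq]
    exact h2.symm
  rw [h6, pairBits_eq]
  exact h1

lemma vld_gam (c₀ : ℕ) (w : List Bool) (i : Ix) (m : ℕ) (x : List Bool)
    (hx : x.length ≤ lev c₀ i m) : vld c₀ (pairBits w (pairBits (gam c₀ i m) x)) = true := by
  obtain ⟨h1, h2, h3, h4⟩ := gam_parse c₀ i m
  have hmono := lev_mono c₀ i m
  unfold vld gz xz
  rw [dec_pair]
  simp only
  rw [dec_pair]
  simp only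
  rw [h1, h2, h3, h4, levc_eq, levc_eq]
  have e1 : gm (gam c₀ i m) = gam c₀ i m := by
    rw [gm, h1, h2, h3, h4, gam, pairBits_eq, pairBits_eq]
  rw [e1]
  simp only [Bool.and_eq_true, beq_iff_eq, decide_eq_true_eq]
  have e3 : lev c₀ (i.1, i.2) (m + 1) = lev c₀ i (m + 1) := rfl
  have e4 : lev c₀ (i.1, i.2) m = lev c₀ i m := rfl
  refine ⟨⟨⟨pairBits_eq _ _, trivial⟩, by omega, by omega⟩, ?_⟩
  simp only [pairBits, gam, List.length_append, List.length_cons, List.length_replicate,
    List.length_flatMap]
  have : (List.map (fun _ : Bool => 2) (List.replicate (lev c₀ i (m + 1)) true)).sum =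
    2 * lev c₀ i (m + 1) := by simp [mul_comm]
  simp
  omega

/-! ### the next action -/

/-- the answer of the universal algorithm -/
def res (T : ℕ) (kind : Bool) (o : Option (List Bool)) : List Bool :=
  match o with
  | none => [true, true, kind, false]
  | some r => match r with
    | [] => [true, true, kind, false]
    | b :: r' => if b then [true, true, kind, r' == [true]] else
        if decide (r'.length ≤ T) then false :: r' else [true, true, kind, false]

/-- the code -/
def cdf (cod : List Bool → Bool × Code × Code) (j : Bool) (c : List Bool) : Code :=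
  if j = true then (cod c).2.1 else (cod c).2.2

/-- the next action on the input `z` after the answers `a` -/
def act (cod : List Bool → Bool × Code × Code) (c₀ : ℕ) (j : Bool) (z a : List Bool) : List Bool :=
  if vld c₀ z then
    (if a.isEmpty then false :: gz z else
      if a.headD false then
        (if decide ((wz z).length ≤ Tg (gz z)) && decide (a.tail.length < Tg (gz z)) then
          res (Tg (gz z)) (cod (ci (gz z))).1
            (U (cdf cod j (ci (gz z))) (dlm (dlm (wz z) ++ xz z) ++ a.tail) (Tg (gz z)))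
        else [true, true, (cod (ci (gz z))).1, false])
      else [true, false])
  else []

section pf

variable {α : Type} [TEnc α]

lemma pf_dbl {K n s : α → ℕ} (hK : PF K) (hn : PF n) (hs : PF s) :
    PF (fun a => dbl (K a) (n a) (s a)) := by
  refine PF.iterate (n := n) (s := fun a => min (s a) (K a)) (f := fun a t => min (2 * t) (K a))
    hn (PF.min hs hK) (PF.min (PF.mul (PF.const 2) PF.snd) (hK.comp PF.fst))
    (b := fun a => sz (K a)) hK.size ?_
  intro a j _
  have h := dbl_le (K a) j (s a)
  unfold dbl at h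
  rw [sz_nat, sz_nat]
  omega

lemma pf_levc (c₀ : ℕ) {K d m : α → ℕ} {c : α → List Bool} (hK : PF K) (hc : PF c) (hd : PF d)
    (hm : PF m) : PF (fun a => levc (K a) c₀ (c a) (d a) (m a)) := by
  have h1 : PF (fun a => c₀ + 2 * (c a).length + d a) :=
    PF.add (PF.add (PF.const c₀) (PF.mul (PF.const 2) (PF.length hc))) hd
  exact pf_dbl hK (pf_dbl hK (pf_dbl hK h1 hm) (PF.const 1)) (PF.const 1)

lemma pf_Tg {g : α → List Bool} (hg : PF g) : PF (fun a => Tg (g a)) := by
  refine PF.foldrAdd (l := g) (s := fun _ => (0 : ℕ)) (f := fun _ b n => if b then n + 1 else 0) hg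
    (PF.const 0) (PF.ite (PF.fst' PF.snd) (PF.succ (PF.snd' PF.snd)) (PF.const 0))
    (inc := fun _ => 2) (bnd := fun _ => 1) (PB.const 2) (PB.const 1) ?_
  intro a b _ st
  cases b
  · simp [sz_zero]
  · simp only [if_true, sz_succ]
    omega

lemma pf_rs {g : α → List Bool} (hg : PF g) : PF (fun a => rs (g a)) :=
  PF.drop (PF.succ (pf_Tg hg)) hg

lemma pf_ci {g : α → List Bool} (hg : PF g) : PF (fun a => ci (g a)) :=
  PF.fst' (pf_decPs (pf_rs hg))

lemma pf_dg {g : α → List Bool} (hg : PF g) : PF (fun a => dg (g a)) :=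
  PF.length (PF.fst' (pf_decPs (PF.snd' (pf_decPs (pf_rs hg)))))

lemma pf_mg {g : α → List Bool} (hg : PF g) : PF (fun a => mg (g a)) :=
  PF.length (PF.snd' (pf_decPs (PF.snd' (pf_decPs (pf_rs hg)))))

lemma pf_gm {g : α → List Bool} (hg : PF g) : PF (fun a => gm (g a)) :=
  PF.append (PF.replicate (pf_Tg hg) (PF.const true)) (PF.cons (PF.const false)
    (PF.append (pf_dlm (pf_ci hg)) (PF.append (pf_dlm (PF.replicate (pf_dg hg) (PF.const true)))
      (PF.replicate (pf_mg hg) (PF.const true)))))

lemma pf_gz {z : α → List Bool} (hz : PF z) : PF (fun a => gz (z a)) :=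
  PF.fst' (pf_decPs (PF.snd' (pf_decPs hz)))

lemma pf_xz {z : α → List Bool} (hz : PF z) : PF (fun a => xz (z a)) :=
  PF.snd' (pf_decPs (PF.snd' (pf_decPs hz)))

lemma pf_wz {z : α → List Bool} (hz : PF z) : PF (fun a => wz (z a)) :=
  PF.fst' (pf_decPs hz)

lemma pf_vld (c₀ : ℕ) {z : α → List Bool} (hz : PF z) : PF (fun a => vld c₀ (z a)) := by
  have hg := pf_gz hz
  have hT := pf_Tg hg
  refine PF.and (PF.and (PF.and ?_ ?_) (PF.and ?_ ?_)) ?_
  · exact PF.beqStr (PF.snd' (pf_decPs hz)) (PF.append (pf_dlm hg) (pf_xz hz))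
  · exact PF.beqStr hg (pf_gm hg)
  · exact PF.natEq (pf_levc c₀ (PF.succ hT) (pf_ci hg) (pf_dg hg) (PF.succ (pf_mg hg))) hT
  · exact PF.le (PF.length (pf_xz hz))
      (pf_levc c₀ (PF.succ hT) (pf_ci hg) (pf_dg hg) (pf_mg hg))
  · exact PF.le hT (PF.length hz)

lemma pf_fail {k : α → Bool} (hk : PF k) : PF (fun a => [true, true, k a, false]) :=
  PF.cons (PF.const true) (PF.cons (PF.const true) (PF.cons hk (PF.const [false])))

lemma pf_res {T : α → ℕ} {k : α → Bool} {o : α → Option (List Bool)} (hT : PF T) (hk : PF k)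
    (ho : PF o) : PF (fun a => res (T a) (k a) (o a)) := by
  have h := PF.optCase (l := o) (g := fun a => [true, true, k a, false])
    (h := fun a r => match r with
      | [] => [true, true, k a, false]
      | b :: r' => if b then [true, true, k a, r' == [true]] else
        if decide (r'.length ≤ T a) then false :: r' else [true, true, k a, false])
    ho (pf_fail hk) (by
      have h2 := PF.listCase (α := α × List Bool) (l := fun p => p.2)
        (g := fun p => [true, true, k p.1, false])
        (h := fun p b r' => if b then [true, true, k p.1, r' == [true]] else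
          if decide (r'.length ≤ T p.1) then false :: r' else [true, true, k p.1, false])
        PF.snd (pf_fail (hk.comp PF.fst)) (by
          have hr : PF (fun p : (α × List Bool) × Bool × List Bool => p.2.2) := PF.snd' PF.snd
          have hk' : PF (fun p : (α × List Bool) × Bool × List Bool => k p.1.1) :=
            hk.comp (PF.fst' PF.fst)
          have hT' : PF (fun p : (α × List Bool) × Bool × List Bool => T p.1.1) :=
            hT.comp (PF.fst' PF.fst)
          refine PF.ite (PF.fst' PF.snd) ?_ (PF.ite (PF.le (PF.length hr) hT')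
            (PF.cons (PF.const false) hr) (pf_fail hk'))
          exact PF.cons (PF.const true) (PF.cons (PF.const true) (PF.cons hk'
            (PF.cons (PF.beqStr hr (PF.const [true])) (PF.const [])))))
      exact h2.congr fun p => by
        obtain ⟨u, r⟩ := p
        cases r <;> rfl)
  exact h.congr fun a => by
    unfold res
    cases o a with
    | none => rfl
    | some r => cases r <;> rfl

lemma pf_cdf {cod : List Bool → Bool × Code × Code} (hcod : PF cod) (j : Bool)
    {c : α → List Bool} (hc : PF c) : PF (fun a => cdf cod j (c a)) := by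
  cases j
  · exact (PF.snd' (PF.snd' (hcod.comp hc))).congr fun a => rfl
  · exact (PF.fst' (PF.snd' (hcod.comp hc))).congr fun a => rfl

lemma pf_act {cod : List Bool → Bool × Code × Code} (hcod : PF cod) (c₀ : ℕ) (j : Bool)
    {z a : α → List Bool} (hz : PF z) (ha : PF a) : PF (fun u => act cod c₀ j (z u) (a u)) := by
  have hg := pf_gz hz
  have hT := pf_Tg hg
  have hc := pf_ci hg
  have hk : PF (fun u => (cod (ci (gz (z u)))).1) := PF.fst' (hcod.comp hc)
  refine PF.ite (pf_vld c₀ hz) (PF.ite (PF.isEmpty ha) (PF.cons (PF.const false) hg)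
    (PF.ite (PF.headD ha (PF.const false)) (PF.ite (PF.and (PF.le (PF.length (pf_wz hz)) hT)
      (PF.lt (PF.length (PF.tail ha)) hT)) (pf_res hT hk ?_) (pf_fail hk))
      (PF.const [true, false]))) (PF.const [])
  exact PF.U.comp (PF.pair (pf_cdf hcod j hc) (PF.pair (PF.append (pf_dlm (PF.append
    (pf_dlm (pf_wz hz)) (pf_xz hz))) (PF.tail ha)) hT))

end pf

/-! ### the algorithm -/

/-- the next-action function -/
def nx (cod : List Bool → Bool × Code × Code) (c₀ : ℕ) (j : Bool) (Y : List Bool) : List Bool :=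
  act cod c₀ j (decPs Y).1 (decPs Y).2

lemma nx_pair (cod : List Bool → Bool × Code × Code) (c₀ : ℕ) (j : Bool) (z a : List Bool) :
    nx cod c₀ j (pairBits z a) = act cod c₀ j z a := by
  rw [nx, dec_pair]

lemma poly_nx {cod : List Bool → Bool × Code × Code} (hcod : PF cod) (c₀ : ℕ) (j : Bool) :
    PolyTime (nx cod c₀ j) := by
  refine Pool.Agent.W2helper61.tm_of_pf (f := nx cod c₀ j) (id : List Bool → List Bool) ?_
  exact pf_act hcod c₀ j (PF.fst' (pf_decPs PF.id)) (PF.snd' (pf_decPs PF.id))

/-- the verifier -/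
noncomputable def vAlg {cod : List Bool → Bool × Code × Code} (hcod : PF cod) (c₀ : ℕ)
    (j : Bool) : Alg where
  D := nx cod c₀ j
  poly := poly_nx hcod c₀ j
  p := Polynomial.X + 3

section run

variable {cod : List Bool → Bool × Code × Code} (hcod : PF cod) (c₀ : ℕ) (j : Bool) (A : Oracle)

lemma run_succ' (z : List Bool) (n : ℕ) (a : List Bool) :
    (vAlg hcod c₀ j).run A z (n + 1) a =
      match act cod c₀ j z a with
      | [] => some []
      | true :: z' => some z'
      | false :: q => (vAlg hcod c₀ j).run A z n (a ++ [A q]) := by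
  rw [Alg.run]
  change (match nx cod c₀ j (pairBits z a) with | [] => _ | true :: z' => _ | false :: q => _) = _
  rw [nx_pair]

lemma act_true {z : List Bool} (hz : vld c₀ z = true) (a : List Bool) :
    act cod c₀ j z (true :: a) =
      (if decide ((wz z).length ≤ Tg (gz z)) && decide (a.length < Tg (gz z)) then
          res (Tg (gz z)) (cod (ci (gz z))).1
            (U (cdf cod j (ci (gz z))) (pairBits (pairBits (wz z) (xz z)) a) (Tg (gz z)))
        else [true, true, (cod (ci (gz z))).1, false]) := by
  rw [act, if_pos hz, if_neg (by simp), if_pos (by simp), List.tail_cons, pairBits_eq (wz z),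
    pairBits_eq]

lemma run_acc {z : List Bool} (hz : vld c₀ z = true) (hw : (wz z).length ≤ Tg (gz z)) :
    ∀ (n : ℕ) (a : List Bool), a.length + n = Tg (gz z) → ∀ N, n + 1 ≤ N →
      (vAlg hcod c₀ j).run A z N (true :: a) = some [true, (cod (ci (gz z))).1,
        acc A (cdf cod j (ci (gz z))) (Tg (gz z)) (pairBits (wz z) (xz z)) n a] := by
  intro n
  induction n with
  | zero =>
    intro a ha N hN
    obtain ⟨N, rfl⟩ := Nat.exists_eq_add_of_le' hN
    rw [zero_add, run_succ', act_true c₀ j hz, if_neg (by simp; omega)]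
    rfl
  | succ n ih =>
    intro a ha N hN
    obtain ⟨N, rfl⟩ : ∃ N', N = N' + 1 := ⟨N - 1, by omega⟩
    rw [run_succ', act_true c₀ j hz, if_pos (by simp; omega), acc]
    cases hU : U (cdf cod j (ci (gz z))) (pairBits (pairBits (wz z) (xz z)) a) (Tg (gz z)) with
    | none => rfl
    | some r =>
      cases r with
      | nil => rfl
      | cons b r =>
        cases b with
        | true =>
          have e : (r == [true]) = decide (r = [true]) := by rw [Bool.eq_iff_iff]; simp
          simp only [res, if_true, e]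
        | false =>
          by_cases hr : r.length ≤ Tg (gz z)
          · simp only [res, if_pos hr, decide_eq_true hr, if_true, Bool.false_eq_true, if_false]
            rw [List.cons_append]
            exact ih (a ++ [A r]) (by simp; omega) N (by omega)
          · simp only [res, if_neg hr, decide_eq_false hr, Bool.false_eq_true, if_false]

lemma out_vld {z : List Bool} (hz : vld c₀ z = true) :
    (A (gz z) = false → (vAlg hcod c₀ j).out A z = some [false]) ∧
    (A (gz z) = true → (wz z).length ≤ Tg (gz z) → (vAlg hcod c₀ j).out A z =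
      some [true, (cod (ci (gz z))).1, acc A (cdf cod j (ci (gz z))) (Tg (gz z))
        (pairBits (wz z) (xz z)) (Tg (gz z)) []]) ∧
    (A (gz z) = true → ¬ (wz z).length ≤ Tg (gz z) → (vAlg hcod c₀ j).out A z =
      some [true, (cod (ci (gz z))).1, false]) := by
  have hT : Tg (gz z) ≤ z.length := by
    have := hz
    unfold vld at this
    simp only [Bool.and_eq_true, decide_eq_true_eq] at this
    exact this.2
  have h0 : (vAlg hcod c₀ j).out A z = (vAlg hcod c₀ j).run A z (z.length + 2) [A (gz z)] := by
    rw [Alg.out]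
    have e : (vAlg hcod c₀ j).p.eval z.length = (z.length + 2) + 1 := by
      change (Polynomial.X + 3 : Polynomial ℕ).eval z.length = _
      rw [Polynomial.eval_add, Polynomial.eval_X]
      have : (3 : Polynomial ℕ) = Polynomial.C 3 := rfl
      rw [this, Polynomial.eval_C]
    rw [e, run_succ']
    have e2 : act cod c₀ j z [] = false :: gz z := by
      rw [act, if_pos hz, if_pos (by simp)]
    rw [e2]
    rfl
  rw [h0]
  refine ⟨fun h => ?_, fun h hw => ?_, fun h hw => ?_⟩
  · rw [h, run_succ']
    have e2 : act cod c₀ j z [false] = [true, false] := by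
      rw [act, if_pos hz, if_neg (by simp), if_neg (by simp)]
    rw [e2]
  · rw [h]
    exact run_acc hcod c₀ j A hz hw (Tg (gz z)) [] (by simp) _ (by omega)
  · rw [h, run_succ', act_true c₀ j hz, if_neg (by simp; omega)]

lemma out_inv {z : List Bool} (hz : vld c₀ z = false) : (vAlg hcod c₀ j).out A z = some [] := by
  rw [Alg.out]
  have e : (vAlg hcod c₀ j).p.eval z.length = (z.length + 2) + 1 := by
    change (Polynomial.X + 3 : Polynomial ℕ).eval z.length = _
    rw [Polynomial.eval_add, Polynomial.eval_X]
    have : (3 : Polynomial ℕ) = Polynomial.C 3 := rfl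
    rw [this, Polynomial.eval_C]
  rw [e, run_succ']
  have e2 : act cod c₀ j z [] = [] := by
    rw [act, if_neg (by simp [hz])]
  rw [e2]

end run

theorem p_ver : P_ver := by
  intro cod hcod c₀
  refine ⟨fun A j z => ((vAlg hcod c₀ j).out A z).getD [], ?_, ?_, ?_⟩
  · intro A j
    refine ⟨vAlg hcod c₀ j, fun z => ?_⟩
    change (vAlg hcod c₀ j).out A z = some (((vAlg hcod c₀ j).out A z).getD [])
    cases hz : vld c₀ z with
    | false => rw [out_inv hcod c₀ j A hz, Option.getD_some]
    | true =>
      obtain ⟨h1, h2, h3⟩ := out_vld hcod c₀ j A hz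
      cases hA : A (gz z) with
      | false => rw [h1 hA, Option.getD_some]
      | true =>
        by_cases hw : (wz z).length ≤ Tg (gz z)
        · rw [h2 hA hw, Option.getD_some]
        · rw [h3 hA hw, Option.getD_some]
  · intro A j w y hy
    have hz : vld c₀ (pairBits w y) = false := by
      by_contra h
      rw [Bool.not_eq_false] at h
      obtain ⟨i, m, x, h1, h2⟩ := vld_imp h
      exact hy i m x h1 h2
    change ((vAlg hcod c₀ j).out A _).getD [] = []
    rw [out_inv hcod c₀ j A hz]
    rfl
  · intro A j w i m x hx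
    have hz := vld_gam c₀ w i m x hx
    obtain ⟨h1, h2, h3⟩ := out_vld hcod c₀ j A hz
    have eg : gz (pairBits w (pairBits (gam c₀ i m) x)) = gam c₀ i m := by
      unfold gz
      rw [dec_pair, dec_pair]
    have ex : xz (pairBits w (pairBits (gam c₀ i m) x)) = x := by
      unfold xz
      rw [dec_pair, dec_pair]
    have ew : wz (pairBits w (pairBits (gam c₀ i m) x)) = w := by
      unfold wz
      rw [dec_pair]
    obtain ⟨p1, p2, -, -⟩ := gam_parse c₀ i m
    rw [eg, ex, ew, p1, p2] at h2
    rw [eg, ew, p1, p2] at h3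
    rw [eg] at h1
    have hcd : cdf cod j i.1 = if j = true then (cod i.1).2.1 else (cod i.1).2.2 := rfl
    rw [hcd] at h2
    refine ⟨fun hA => ?_, fun hA => ⟨fun h => ?_, fun h => ?_⟩⟩
    · change ((vAlg hcod c₀ j).out A _).getD [] = [false]
      rw [h1 hA]
      rfl
    · obtain ⟨hw, hacc⟩ := h
      change ((vAlg hcod c₀ j).out A _).getD [] = _
      rw [h2 hA hw, Option.getD_some]
      rw [W2helper26.PB.Acc] at hacc
      rw [hacc]
    · change ((vAlg hcod c₀ j).out A _).getD [] = _
      by_cases hw : w.length ≤ lev c₀ i (m + 1)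
      · have hacc : ¬ Acc A (if j = true then (cod i.1).2.1 else (cod i.1).2.2)
            (lev c₀ i (m + 1)) (pairBits w x) := fun h' => h ⟨hw, h'⟩
        rw [W2helper26.PB.Acc, Bool.not_eq_true] at hacc
        rw [h2 hA hw, Option.getD_some, hacc]
      · rw [h3 hA hw]
        rfl

end Pool.Agent.W2helper12.PB
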